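import Pool.Agent.H16.ORB.C

open Classical Finset

namespace Pool.ORB

namespace KID31

theorem sum_biUnion_le' {α β : Type} [DecidableEq β] (F : Finset α) (g : α → Finset β) (φ : β → ℝ)
    (h : ∀ b, 0 ≤ φ b) : ∑ b ∈ F.biUnion g, φ b ≤ ∑ a ∈ F, ∑ b ∈ g a, φ b := by
  induction F using Finset.induction_on with
  | empty => simp
  | insert a s ha ih =>
    rw [biUnion_insert, sum_insert ha]
    have h1 : ∑ b ∈ g a ∪ s.biUnion g, φ b ≤ ∑ b ∈ g a, φ b + ∑ b ∈ s.biUnion g, φ b := by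
      rw [← sum_union_inter]
      have := sum_nonneg (s := g a ∩ s.biUnion g) (fun b _ => h b)
      linarith
    linarith

variable {E Nd Sg W : Type} [Fintype E] [Fintype W] [Fintype Sg]

theorem card_qs (D : Dat E Nd Sg W) (σ : Bool) (s t : Sg) (g : E → Nd → Option Bool) :
    (D.qs σ s t g).card ≤ D.p := by
  unfold Dat.qs
  split_ifs
  · exact D.card_le _ _ _
  · exact D.card_le _ _ _

theorem card_kids (D : Dat E Nd Sg W) (σ : Bool) (κ : FS E Nd) (t : Sg) (l : Lf E Nd Sg) :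
    (D.kids σ κ t l).card ≤ 2 * D.p := by
  unfold Dat.kids
  refine card_image_le.trans ?_
  rw [card_product]
  have h1 : ((D.qs σ l.1 t (ans (κ ∪ l.2))).filter (fun x => x.1 ∉ dm (κ ∪ l.2))).card ≤ D.p :=
    (card_filter_le _ _).trans (card_qs D σ l.1 t _)
  have h2 : (univ : Finset Bool).card = 2 := by simp
  rw [h2]
  omega

theorem mem_kids (D : Dat E Nd Sg W) (σ : Bool) (κ : FS E Nd) (t : Sg) (l l' : Lf E Nd Sg) :
    l' ∈ D.kids σ κ t l ↔ ∃ f : Fct E Nd, f.1 ∉ dm (κ ∪ l.2) ∧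
      (f.1, f.2.1) ∈ D.qs σ l.1 t (ans (κ ∪ l.2)) ∧ l' = (l.1, insert f l.2) := by
  unfold Dat.kids
  simp only [mem_image, mem_product, mem_filter, mem_univ, and_true]
  constructor
  · rintro ⟨xb, ⟨h1, h2⟩, rfl⟩
    exact ⟨(xb.1.1, xb.1.2, xb.2), h2, h1, rfl⟩
  · rintro ⟨f, h1, h2, rfl⟩
    exact ⟨((f.1, f.2.1), f.2.2), ⟨h2, h1⟩, rfl⟩

end KID31

open KID31

theorem kid : KIDStmt := by
  intro E Nd Sg W _ _ _ D σ κ t
  have c2 := mem_kids D σ κ t
  refine ⟨card_kids D σ κ t, c2, ?_, ?_⟩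
  · intro l l' h
    obtain ⟨f, h1, h2, rfl⟩ := (c2 l l').1 h
    refine ⟨rfl, subset_insert _ _, ?_⟩
    refine card_insert_of_notMem ?_
    intro hf
    exact h1 (mem_image_of_mem Prod.fst (mem_union_right _ hf))
  · intro F φ c hc hφ hk
    unfold Dat.stp
    refine (sum_biUnion_le' F _ φ hφ).trans ?_
    rw [sum_filter, sum_filter, mul_sum, ← sum_add_distrib]
    refine sum_le_sum ?_
    intro l hl
    by_cases hF : Fn (κ ∪ l.2)
    · by_cases hch : D.chal σ l.1 t (ans (κ ∪ l.2)) = true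
      · simp only [hF, hch, if_true, not_true, and_false, if_false, and_self, zero_add]
        have h1 : ∑ l' ∈ D.kids σ κ t l, φ l' ≤ ∑ l' ∈ D.kids σ κ t l, c * φ l :=
          sum_le_sum (fun l' hl' => hk l hl hF hch l' hl')
        rw [sum_const, nsmul_eq_mul] at h1
        have h2 : ((D.kids σ κ t l).card : ℝ) ≤ 2 * D.p := by
          exact_mod_cast card_kids D σ κ t l
        have h3 : 0 ≤ c * φ l := mul_nonneg hc (hφ l)
        calc ∑ l' ∈ D.kids σ κ t l, φ l' ≤ ((D.kids σ κ t l).card : ℝ) * (c * φ l) := h1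
          _ ≤ (2 * D.p) * (c * φ l) := mul_le_mul_of_nonneg_right h2 h3
          _ = 2 * (D.p : ℝ) * c * φ l := by ring
      · simp [hF, hch]
    · simp [hF]

end Pool.ORB
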