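import Pool.Agent.H16.ORB.C

open Classical Finset

namespace Pool.ORB

theorem one : ONEStmt := by
  intro E Nd Sg W _ _ _ D ρ u f hf
  have hq0 : 0 < D.q := by
    have h1 := D.hq
    have h2 : 0 < 16 * Hp D.p * (Tp D.p) ^ 2 := by
      unfold Hp Tp
      positivity
    omega
  have hqR : (1 : ℝ) ≤ D.q := by exact_mod_cast hq0
  have hqne : (D.q : ℝ) ≠ 0 := by positivity
  have hfρ : f ∉ ρ := fun h => hf (mem_image_of_mem Prod.fst h)
  have c1 : f.1 ∉ dm u → D.wt (insert f ρ) u = D.wt ρ u := by
    intro hu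
    have hfu : f ∉ u := fun h => hu (mem_image_of_mem Prod.fst h)
    have hF : Fn (insert f ρ ∪ u) ↔ Fn (ρ ∪ u) := by
      rw [insert_union]
      constructor
      · intro h a ha b hb hab
        exact h a (mem_insert_of_mem ha) b (mem_insert_of_mem hb) hab
      · intro h a ha b hb hab
        have key : ∀ c ∈ ρ ∪ u, c.1 ≠ f.1 := by
          intro c hc hcf
          rcases mem_union.1 hc with hc | hc
          · exact hf (hcf ▸ mem_image_of_mem Prod.fst hc)
          · exact hu (hcf ▸ mem_image_of_mem Prod.fst hc)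
        rcases mem_insert.1 ha with ha | ha
        · rcases mem_insert.1 hb with hb | hb
          · rw [ha, hb]
          · exact absurd (by rw [← hab, ha]) (key b hb)
        · rcases mem_insert.1 hb with hb | hb
          · exact absurd (by rw [hab, hb]) (key a ha)
          · exact h a ha b hb hab
    have hI : u ∩ insert f ρ = u ∩ ρ := by
      ext x
      simp only [mem_inter, mem_insert]
      constructor
      · rintro ⟨hx, h | h⟩
        · exact absurd (h ▸ hx) hfu
        · exact ⟨hx, h⟩
      · rintro ⟨hx, h⟩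
        exact ⟨hx, Or.inr h⟩
    have hD : u \ insert f ρ = u \ ρ := by
      ext x
      simp only [mem_sdiff, mem_insert]
      constructor
      · rintro ⟨hx, h⟩
        exact ⟨hx, fun h' => h (Or.inr h')⟩
      · rintro ⟨hx, h⟩
        refine ⟨hx, ?_⟩
        rintro (h' | h')
        · exact hfu (h' ▸ hx)
        · exact h h'
    unfold Dat.wt
    simp only [hF, hI, hD]
  have c2 : f ∈ u → D.wt (insert f ρ) u = (D.q : ℝ) ^ 2 * D.wt ρ u := by
    intro hu
    have hU : insert f ρ ∪ u = ρ ∪ u := by
      rw [insert_union]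
      exact insert_eq_of_mem (mem_union_right _ hu)
    have hI : (u ∩ insert f ρ).card = (u ∩ ρ).card + 1 := by
      have h1 : u ∩ insert f ρ = insert f (u ∩ ρ) := by
        ext x
        simp only [mem_inter, mem_insert]
        constructor
        · rintro ⟨hx, h | h⟩
          · exact Or.inl h
          · exact Or.inr ⟨hx, h⟩
        · rintro (h | ⟨h1, h2⟩)
          · exact ⟨h ▸ hu, Or.inl h⟩
          · exact ⟨h1, Or.inr h2⟩
      rw [h1, card_insert_of_notMem]
      simp [hfρ]
    have hD : (u \ ρ).card = (u \ insert f ρ).card + 1 := by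
      have h1 : u \ ρ = insert f (u \ insert f ρ) := by
        ext x
        simp only [mem_sdiff, mem_insert]
        constructor
        · rintro ⟨h1, h2⟩
          by_cases hx : x = f
          · exact Or.inl hx
          · exact Or.inr ⟨h1, fun h => h.elim hx h2⟩
        · rintro (h | ⟨h1, h2⟩)
          · exact ⟨h ▸ hu, h ▸ hfρ⟩
          · exact ⟨h1, fun h => h2 (Or.inr h)⟩
      rw [h1, card_insert_of_notMem]
      simp
    unfold Dat.wt
    rw [hU, hI, hD]
    split_ifs
    · have h5 : (D.q : ℝ) * (1 / (D.q : ℝ)) = 1 := by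
        field_simp
      generalize (u ∩ ρ).card = a
      generalize (u \ insert f ρ).card = b
      have h6 : (D.q : ℝ) ^ 2 * ((D.q : ℝ) ^ a * (1 / (D.q : ℝ)) ^ (b + 1)) =
          (D.q : ℝ) ^ (a + 1) * (1 / (D.q : ℝ)) ^ b * ((D.q : ℝ) * (1 / (D.q : ℝ))) := by
        ring
      rw [h6, h5, mul_one]
    · simp
  have c3 : f.1 ∈ dm u → f ∉ u → D.wt (insert f ρ) u = 0 := by
    intro hu hfu
    obtain ⟨g, hg, hgf⟩ := mem_image.1 hu
    unfold Dat.wt
    rw [if_neg]
    intro h
    have h1 := h g (mem_union_right _ hg) f (mem_union_left _ (mem_insert_self f ρ)) hgf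
    exact hfu (h1 ▸ hg)
  have c4 : 0 ≤ D.wt ρ u := by
    unfold Dat.wt
    split_ifs
    · positivity
    · exact le_refl _
  refine ⟨c1, c2, c3, c4, ?_⟩
  by_cases hu : f.1 ∈ dm u
  · by_cases hfu : f ∈ u
    · exact (c2 hfu).le
    · rw [c3 hu hfu]
      positivity
  · rw [c1 hu]
    have h1 : (1 : ℝ) ≤ (D.q : ℝ) ^ 2 := one_le_pow₀ hqR
    nlinarith

end Pool.ORB
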